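import Pool.Agent.Lib_helper74.Canc.A23

set_option linter.unusedSectionVars false

namespace Pool.Agent.Canc

open Filter Topology Set

section core

variable {X : Type*} [AddCommGroup X] [TopologicalSpace X] [IsTopologicalAddGroup X] [T2Space X]
  [SecondCountableTopology X] [MeasurableSpace X] [BorelSpace X]

theorem coreZ0 (s₁ s₂ : X) (hs : ∀ a b : ℤ, a • s₁ + b • s₂ = 0 → a = 0 ∧ b = 0)
    (c : X → ZMod 2) (hc : Measurable c) :
    ∃ d₁ d₂ : X → ZMod 2, Measurable d₁ ∧ Measurable d₂ ∧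
      ∀ᶠ x in residual X, c x = (d₁ (x - s₁) + d₁ x) + (d₂ (x - s₂) + d₂ x) := by
  obtain ⟨d₁, d₂, h₁, h₂, -, -, h⟩ := lemmaA2 (AddMonoidHom.id X) continuous_id IsOpenMap.id
    (-s₁) (-s₂) (by
      intro a b hab
      simp only [AddMonoidHom.id_apply, smul_neg] at hab
      apply hs a b
      have := congrArg (fun y => -y) hab
      simp at this
      rw [← this]; abel) 0 (by simp) c hc (by simp)
  exact ⟨d₁, d₂, h₁, h₂, by simpa only [sub_eq_add_neg] using h⟩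

theorem coreL1 (s₁ s₂ s₃ : X)
    (hs : ∀ a b c : ℤ, a • s₁ + b • s₂ + c • s₃ = 0 → a = 0 ∧ b = 0 ∧ c = 0)
    (H₁ H₂ : X → ZMod 2) (hm₁ : Measurable H₁) (hm₂ : Measurable H₂)
    (hh : ∀ᶠ x in residual X, (H₁ (x - s₁) + H₁ x) + (H₂ (x - s₂) + H₂ x) = 0) :
    ∃ s₁₂ s₁₃ s₂₃ : X → ZMod 2, (Measurable s₁₂ ∧ Measurable s₁₃ ∧ Measurable s₂₃) ∧
      (∀ᶠ x in residual X, H₁ x = (s₁₂ (x - s₂) + s₁₂ x) + (s₁₃ (x - s₃) + s₁₃ x)) ∧
      (∀ᶠ x in residual X, H₂ x = (s₁₂ (x - s₁) + s₁₂ x) + (s₂₃ (x - s₃) + s₂₃ x)) ∧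
      (∀ᶠ x in residual X, (s₁₃ (x - s₁) + s₁₃ x) + (s₂₃ (x - s₂) + s₂₃ x) = 0) := by
  obtain ⟨a, b, c, h, -, h1, h2, h3⟩ := lemmaA3 (AddMonoidHom.id X) continuous_id IsOpenMap.id
    (-s₁) (-s₂) (-s₃) (by
      intro a b c hab
      simp only [AddMonoidHom.id_apply, smul_neg] at hab
      apply hs a b c
      have := congrArg (fun y => -y) hab
      simp at this
      rw [← this]; abel) 0 (by simp) H₁ H₂ hm₁ hm₂ (by simp) (by simp)
      (by simpa only [sub_eq_add_neg] using hh)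
  refine ⟨a, b, c, h, ?_, ?_, ?_⟩
  · simpa only [sub_eq_add_neg] using h1
  · simpa only [sub_eq_add_neg] using h2
  · simpa only [sub_eq_add_neg] using h3

/-- integer lift -/
noncomputable def lf (d : X → ZMod 2) (x : X) : ℤ := ((d x).val : ℤ)

theorem lf_meas {d : X → ZMod 2} (hd : Measurable d) : Measurable (lf d) := by
  have : Measurable (fun z : ZMod 2 => (z.val : ℤ)) := measurable_of_countable _
  exact this.comp hd

theorem lf_cast (d : X → ZMod 2) (x : X) : ((lf d x : ℤ) : ZMod 2) = d x := by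
  simp [lf]

theorem lf_bd (d : X → ZMod 2) (x : X) : 0 ≤ lf d x ∧ lf d x ≤ 1 := by
  have := ZMod.val_lt (d x)
  unfold lf
  constructor <;> omega

theorem even_of_cast {a : ℤ} (h : (a : ZMod 2) = 0) : 2 * (a / 2) = a := by
  rw [ZMod.intCast_zmod_eq_zero_iff_dvd] at h
  exact Int.mul_ediv_cancel' h

theorem res_sub {p : X → Prop} (h : ∀ᶠ x in residual X, p x) (t : X) :
    ∀ᶠ x in residual X, p (x - t) := by
  have h1 : Continuous (fun x : X => x + -t) := continuous_id.add continuous_const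
  have h2 := (tendsto_residual_of_isOpenMap h1 (isOpenMap_add_right (-t))).eventually h
  simpa only [sub_eq_add_neg] using h2

theorem coreQ (s₁ s₂ s₃ : X)
    (hs : ∀ a b c : ℤ, a • s₁ + b • s₂ + c • s₃ = 0 → a = 0 ∧ b = 0 ∧ c = 0)
    (k : ℕ) (w : X → ℤ) (_hw : Measurable w) (z : Fin k → X → ℤ) (hz : ∀ i, Measurable (z i))
    (hz01 : ∀ i x, z i x = 0 ∨ z i x = 1) (v : Fin k → X)
    (h : ∀ᶠ x in residual X, 2 * w x = ∑ i, (z i x - z i (x - v i))) :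
    ∃ (c : Fin (k + 3) → X → ℤ) (u : Fin (k + 3) → X), (∀ j, Measurable (c j)) ∧
      (∀ j x, |c j x| ≤ (k : ℤ) + 2) ∧
      ∀ᶠ x in residual X, w x = ∑ j, (c j x - c j (x - u j)) := by
  have hcast : Measurable (fun z : ℤ => (z : ZMod 2)) := measurable_of_countable _
  have hdiv : Measurable (fun z : ℤ => z / 2) := measurable_of_countable _
  -- step 1: decompose each `z i`
  have hZ : ∀ i, ∃ h₁ h₂ : X → ZMod 2, Measurable h₁ ∧ Measurable h₂ ∧
      ∀ᶠ x in residual X, ((z i x : ℤ) : ZMod 2) =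
        (h₁ (x - s₁) + h₁ x) + (h₂ (x - s₂) + h₂ x) := by
    intro i
    exact coreZ0 s₁ s₂ (fun a b hab => by
      have := hs a b 0 (by simpa using hab)
      exact ⟨this.1, this.2.1⟩) (fun x => ((z i x : ℤ) : ZMod 2)) (hcast.comp (hz i))
  choose g₁ g₂ hg₁ hg₂ hg using hZ
  set a₁ : Fin k → X → ℤ := fun i => lf (g₁ i) with ha₁
  set a₂ : Fin k → X → ℤ := fun i => lf (g₂ i) with ha₂
  have ma₁ : ∀ i, Measurable (a₁ i) := fun i => lf_meas (hg₁ i)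
  have ma₂ : ∀ i, Measurable (a₂ i) := fun i => lf_meas (hg₂ i)
  have ba₁ : ∀ i x, 0 ≤ a₁ i x ∧ a₁ i x ≤ 1 := fun i x => lf_bd _ _
  have ba₂ : ∀ i x, 0 ≤ a₂ i x ∧ a₂ i x ≤ 1 := fun i x => lf_bd _ _
  set K : Fin k → X → ℤ := fun i x =>
    (z i x - (a₁ i x - a₁ i (x - s₁)) - (a₂ i x - a₂ i (x - s₂))) / 2 with hK
  have mK : ∀ i, Measurable (K i) := fun i => hdiv.comp
    (((hz i).sub ((ma₁ i).sub ((ma₁ i).comp (measurable_id.sub_const _)))).sub
      ((ma₂ i).sub ((ma₂ i).comp (measurable_id.sub_const _))))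
  have bK : ∀ i x, |K i x| ≤ 1 := by
    intro i x
    have := ba₁ i x
    have := ba₁ i (x - s₁)
    have := ba₂ i x
    have := ba₂ i (x - s₂)
    have := hz01 i x
    simp only [hK]
    rw [abs_le]
    omega
  have eK : ∀ i, ∀ᶠ x in residual X, z i x = (a₁ i x - a₁ i (x - s₁)) +
      (a₂ i x - a₂ i (x - s₂)) + 2 * K i x := by
    intro i
    filter_upwards [hg i] with x hx
    have : ((z i x - (a₁ i x - a₁ i (x - s₁)) - (a₂ i x - a₂ i (x - s₂)) : ℤ) : ZMod 2) = 0 := by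
      push_cast
      simp only [ha₁, ha₂, lf_cast]
      rw [hx]
      linear_combination (g₁ i (x - s₁) + g₂ i (x - s₂)) * two_zero
    have := even_of_cast this
    simp only [hK]
    linarith
  -- step 2
  set H₁ : X → ℤ := fun x => ∑ i, (a₁ i x - a₁ i (x - v i)) with hH₁
  set H₂ : X → ℤ := fun x => ∑ i, (a₂ i x - a₂ i (x - v i)) with hH₂
  have mH₁ : Measurable H₁ := Finset.measurable_sum _ fun i _ =>
    (ma₁ i).sub ((ma₁ i).comp (measurable_id.sub_const _))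
  have mH₂ : Measurable H₂ := Finset.measurable_sum _ fun i _ =>
    (ma₂ i).sub ((ma₂ i).comp (measurable_id.sub_const _))
  have bsum : ∀ f : Fin k → ℤ, (∀ i, |f i| ≤ 1) → |∑ i, f i| ≤ (k : ℤ) := by
    intro f hf
    calc |∑ i, f i| ≤ ∑ i, |f i| := Finset.abs_sum_le_sum_abs _ _
      _ ≤ ∑ i : Fin k, (1 : ℤ) := Finset.sum_le_sum fun i _ => hf i
      _ = (k : ℤ) := by simp
  have bH₁ : ∀ x, |H₁ x| ≤ (k : ℤ) := by
    intro x
    apply bsum
    intro i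
    have := ba₁ i x
    have := ba₁ i (x - v i)
    rw [abs_le]; omega
  have bH₂ : ∀ x, |H₂ x| ≤ (k : ℤ) := by
    intro x
    apply bsum
    intro i
    have := ba₂ i x
    have := ba₂ i (x - v i)
    rw [abs_le]; omega
  have e2w : ∀ᶠ x in residual X, 2 * w x = (H₁ x - H₁ (x - s₁)) + (H₂ x - H₂ (x - s₂)) +
      2 * ∑ i, (K i x - K i (x - v i)) := by
    have h1 : ∀ᶠ x in residual X, ∀ i, z i x = (a₁ i x - a₁ i (x - s₁)) +
      (a₂ i x - a₂ i (x - s₂)) + 2 * K i x := by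
      rw [eventually_countable_forall]
      exact eK
    have h2 : ∀ᶠ x in residual X, ∀ i, z i (x - v i) = (a₁ i (x - v i) - a₁ i (x - v i - s₁)) +
      (a₂ i (x - v i) - a₂ i (x - v i - s₂)) + 2 * K i (x - v i) := by
      rw [eventually_countable_forall]
      exact fun i => res_sub (eK i) (v i)
    filter_upwards [h, h1, h2] with x hx hx1 hx2
    rw [hx]
    simp only [hH₁, hH₂, Finset.mul_sum, ← Finset.sum_sub_distrib, ← Finset.sum_add_distrib]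
    apply Finset.sum_congr rfl
    intro i _
    rw [hx1 i, hx2 i, sub_right_comm x (v i) s₁, sub_right_comm x (v i) s₂]
    ring
  -- step 3: L1
  obtain ⟨p₁₂, p₁₃, p₂₃, ⟨m₁₂, m₁₃, m₂₃⟩, E₁, E₂, E₃⟩ := coreL1 s₁ s₂ s₃ hs
    (fun x => ((H₁ x : ℤ) : ZMod 2)) (fun x => ((H₂ x : ℤ) : ZMod 2)) (hcast.comp mH₁)
    (hcast.comp mH₂) (by
      filter_upwards [e2w] with x hx
      have := congrArg (fun z : ℤ => (z : ZMod 2)) hx
      simp only [Int.cast_add, Int.cast_mul, Int.cast_sub] at this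
      linear_combination -this + ((H₁ (x - s₁) : ZMod 2) +
        (H₂ (x - s₂) : ZMod 2)) * two_zero + (w x -
        ((∑ i, (K i x - K i (x - v i)) : ℤ) : ZMod 2)) * two_zero)
  set S₁₂ := lf p₁₂ with hS₁₂
  set S₁₃ := lf p₁₃ with hS₁₃
  set S₂₃ := lf p₂₃ with hS₂₃
  have n₁₂ : Measurable S₁₂ := lf_meas m₁₂
  have n₁₃ : Measurable S₁₃ := lf_meas m₁₃
  have n₂₃ : Measurable S₂₃ := lf_meas m₂₃
  set y₁ : X → ℤ := fun x => (S₁₂ x - S₁₂ (x - s₂)) + (S₁₃ x - S₁₃ (x - s₃)) with hy₁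
  set y₂ : X → ℤ := fun x => -(S₁₂ x - S₁₂ (x - s₁)) + (S₂₃ x - S₂₃ (x - s₃)) with hy₂
  set y₃ : X → ℤ := fun x => -(S₁₃ x - S₁₃ (x - s₁)) - (S₂₃ x - S₂₃ (x - s₂)) with hy₃
  have my₁ : Measurable y₁ := (n₁₂.sub (n₁₂.comp (measurable_id.sub_const _))).add
    (n₁₃.sub (n₁₃.comp (measurable_id.sub_const _)))
  have my₂ : Measurable y₂ := (n₁₂.sub (n₁₂.comp (measurable_id.sub_const _))).neg.add
    (n₂₃.sub (n₂₃.comp (measurable_id.sub_const _)))
  have my₃ : Measurable y₃ := (n₁₃.sub (n₁₃.comp (measurable_id.sub_const _))).neg.sub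
    (n₂₃.sub (n₂₃.comp (measurable_id.sub_const _)))
  have F₁ : ∀ᶠ x in residual X, 2 * ((H₁ x - y₁ x) / 2) = H₁ x - y₁ x := by
    filter_upwards [E₁] with x hx
    apply even_of_cast
    push_cast
    simp only [hy₁]
    push_cast
    simp only [hS₁₂, hS₁₃, lf_cast]
    rw [hx]
    linear_combination (p₁₂ (x - s₂) + p₁₃ (x - s₃)) * two_zero
  have F₂ : ∀ᶠ x in residual X, 2 * ((H₂ x - y₂ x) / 2) = H₂ x - y₂ x := by
    filter_upwards [E₂] with x hx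
    apply even_of_cast
    push_cast
    simp only [hy₂]
    push_cast
    simp only [hS₁₂, hS₂₃, lf_cast]
    rw [hx]
    linear_combination (p₁₂ x + p₂₃ (x - s₃)) * two_zero
  have F₃ : ∀ᶠ x in residual X, 2 * ((- y₃ x) / 2) = - y₃ x := by
    filter_upwards [E₃] with x hx
    apply even_of_cast
    simp only [hy₃]
    push_cast
    simp only [hS₁₃, hS₂₃, lf_cast]
    linear_combination hx - (p₁₃ (x - s₁) + p₂₃ (x - s₂)) * two_zero
  refine ⟨Fin.cons (fun x => (H₁ x - y₁ x) / 2) (Fin.cons (fun x => (H₂ x - y₂ x) / 2)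
    (Fin.cons (fun x => (- y₃ x) / 2) K)), Fin.cons s₁ (Fin.cons s₂ (Fin.cons s₃ v)), ?_, ?_, ?_⟩
  · intro j
    refine Fin.cases ?_ (fun j => ?_) j
    · exact hdiv.comp (mH₁.sub my₁)
    refine Fin.cases ?_ (fun j => ?_) j
    · exact hdiv.comp (mH₂.sub my₂)
    refine Fin.cases ?_ (fun j => ?_) j
    · exact hdiv.comp my₃.neg
    · exact mK j
  · intro j x
    have b1 := bH₁ x
    have b2 := bH₂ x
    have c1 : 0 ≤ S₁₂ x ∧ S₁₂ x ≤ 1 := lf_bd _ _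
    have c2 : 0 ≤ S₁₃ x ∧ S₁₃ x ≤ 1 := lf_bd _ _
    have c3 : 0 ≤ S₂₃ x ∧ S₂₃ x ≤ 1 := lf_bd _ _
    have c4 : 0 ≤ S₁₂ (x - s₂) ∧ S₁₂ (x - s₂) ≤ 1 := lf_bd _ _
    have c5 : 0 ≤ S₁₂ (x - s₁) ∧ S₁₂ (x - s₁) ≤ 1 := lf_bd _ _
    have c6 : 0 ≤ S₁₃ (x - s₃) ∧ S₁₃ (x - s₃) ≤ 1 := lf_bd _ _
    have c7 : 0 ≤ S₁₃ (x - s₁) ∧ S₁₃ (x - s₁) ≤ 1 := lf_bd _ _
    have c8 : 0 ≤ S₂₃ (x - s₃) ∧ S₂₃ (x - s₃) ≤ 1 := lf_bd _ _
    have c9 : 0 ≤ S₂₃ (x - s₂) ∧ S₂₃ (x - s₂) ≤ 1 := lf_bd _ _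
    rw [abs_le] at b1 b2
    refine Fin.cases ?_ (fun j => ?_) j
    · simp only [Fin.cons_zero, hy₁]
      rw [abs_le]; omega
    refine Fin.cases ?_ (fun j => ?_) j
    · simp only [Fin.cons_zero, Fin.cons_succ, hy₂]
      rw [abs_le]; omega
    refine Fin.cases ?_ (fun j => ?_) j
    · simp only [Fin.cons_zero, Fin.cons_succ, hy₃]
      rw [abs_le]; omega
    · simp only [Fin.cons_succ]
      have := bK j x
      omega
  · filter_upwards [e2w, F₁, F₂, F₃, res_sub F₁ s₁, res_sub F₂ s₂, res_sub F₃ s₃]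
      with x hx f1 f2 f3 g1 g2 g3
    rw [Fin.sum_univ_succ, Fin.sum_univ_succ, Fin.sum_univ_succ]
    simp only [Fin.cons_zero, Fin.cons_succ]
    have r12 : x - s₁ - s₂ = x - s₂ - s₁ := sub_right_comm _ _ _
    have r13 : x - s₁ - s₃ = x - s₃ - s₁ := sub_right_comm _ _ _
    have r23 : x - s₂ - s₃ = x - s₃ - s₂ := sub_right_comm _ _ _
    simp only [hy₁, hy₂, hy₃, r12, r13, r23] at f1 f2 f3 g1 g2 g3 ⊢
    linarith

end core

end Pool.Agent.Canc
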