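import Mathlib

/-!
The explicit trivialisation of 2-cocycles (in the form of every `ZMod 2`-valued 1-cocycle of `H`
is `(ρ - 1) S + d ψ`) along a merging sequence for the action of `H × ℤ`.
-/

set_option linter.unusedSectionVars false

namespace Pool.Agent.Canc

open Filter Topology Set

/-- limit of an eventually constant sequence in `ZMod 2` -/
noncomputable def lim2 (u : ℕ → ZMod 2) : ZMod 2 := by
  classical
  exact if ∃ n, ∀ m, n ≤ m → u m = 1 then 1 else 0

theorem lim2_eq {u : ℕ → ZMod 2} {n : ℕ} {c : ZMod 2} (h : ∀ m, n ≤ m → u m = c) :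
    lim2 u = c := by
  classical
  unfold lim2
  have hc : c = 0 ∨ c = 1 := by clear h; revert c; decide
  rcases hc with hc | hc
  · rw [if_neg]
    · exact hc.symm
    · rintro ⟨k, hk⟩
      have h1 := hk (max n k) (le_max_right _ _)
      have h2 := h (max n k) (le_max_left _ _)
      rw [h1, hc] at h2
      exact absurd h2 (by decide)
  · rw [if_pos]
    · exact hc.symm
    · exact ⟨n, fun m hm => by rw [h m hm, hc]⟩

theorem exists_eq_lim2 {u : ℕ → ZMod 2} {n : ℕ} (h : ∀ m, n ≤ m → u (m + 1) = u m) :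
    ∀ m, n ≤ m → u m = lim2 u := by
  have h1 : ∀ m, n ≤ m → u m = u n := by
    intro m hm
    induction m, hm using Nat.le_induction with
    | base => rfl
    | succ m hm ih => rw [h m hm, ih]
  intro m hm
  rw [h1 m hm, lim2_eq h1]

theorem measurable_lim2 {X : Type*} [MeasurableSpace X] {u : ℕ → X → ZMod 2}
    (hu : ∀ n, Measurable (u n)) : Measurable (fun x => lim2 (fun n => u n x)) := by
  classical
  unfold lim2
  apply Measurable.ite _ measurable_const measurable_const
  have : {x | ∃ n, ∀ m, n ≤ m → u m x = 1} = ⋃ n, ⋂ m, ⋂ (_ : n ≤ m), (u m) ⁻¹' {1} := by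
    ext x
    simp
  rw [this]
  exact MeasurableSet.iUnion fun n => MeasurableSet.iInter fun m => MeasurableSet.iInter fun _ =>
    hu m (measurableSet_singleton _)

section signed

variable {X : Type*} [AddCommGroup X]

/-- the signed Birkhoff sum along `ρ` -/
noncomputable def sS (ρ : X) (f : X → ZMod 2) (k : ℤ) (y : X) : ZMod 2 :=
  ∑ j ∈ Finset.Ico (min 0 k) (max 0 k), f (y + j • ρ)

theorem two_zero : (2 : ZMod 2) = 0 := by decide

theorem sS_zero (ρ : X) (f : X → ZMod 2) (y : X) : sS ρ f 0 y = 0 := by simp [sS]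

theorem sS_succ (ρ : X) (f : X → ZMod 2) (k : ℤ) (y : X) :
    sS ρ f (k + 1) y = sS ρ f k y + f (y + k • ρ) := by
  unfold sS
  rcases le_or_gt 0 k with hk | hk
  · rw [min_eq_left (by omega), max_eq_right (by omega), min_eq_left hk, max_eq_right hk,
      ← Finset.insert_Ico_right_eq_Ico_add_one hk, Finset.sum_insert (by simp)]
    ring
  · rw [min_eq_right (by omega), max_eq_left (by omega), min_eq_right hk.le, max_eq_left hk.le,
      ← Finset.insert_Ico_add_one_left_eq_Ico hk, Finset.sum_insert (by simp)]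
    linear_combination (-f (y + k • ρ)) * two_zero

theorem sS_period (ρ : X) (f : X → ZMod 2) (k : ℤ) (y p : X) (hf : ∀ y, f (y + p) = f y) :
    sS ρ f k (y + p) = sS ρ f k y := by
  unfold sS
  apply Finset.sum_congr rfl
  intro j _
  rw [← hf (y + j • ρ)]
  congr 1
  abel

end signed

section G

variable {X H : Type*} [AddCommGroup X] [AddCommGroup H]

/-- the action of `H × ℤ` -/
def iact (ι : H →+ X) (ρ : X) : H × ℤ →+ X where
  toFun γ := ι γ.1 + γ.2 • ρ
  map_zero' := by simp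
  map_add' a b := by simp [add_smul]; abel

@[simp] theorem iact_apply (ι : H →+ X) (ρ : X) (γ : H × ℤ) :
    iact ι ρ γ = ι γ.1 + γ.2 • ρ := rfl

/-- the partial sums of gauge transformations -/
noncomputable def gG (ι : H →+ X) (ρ : X) (α : H → X → ZMod 2) (b : ℕ → X → H × ℤ) (n : ℕ)
    (x : X) : ZMod 2 :=
  ∑ m ∈ Finset.range n, sS ρ (α ((b (m + 1) x).1 - (b m x).1)) (-(b m x).2) (x + iact ι ρ (b m x))

theorem gG_succ (ι : H →+ X) (ρ : X) (α : H → X → ZMod 2) (b : ℕ → X → H × ℤ) (n : ℕ)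
    (x : X) : gG ι ρ α b (n + 1) x = gG ι ρ α b n x +
      sS ρ (α ((b (n + 1) x).1 - (b n x).1)) (-(b n x).2) (x + iact ι ρ (b n x)) := by
  unfold gG
  rw [Finset.sum_range_succ]

variable (ι : H →+ X) (ρ : X) (α : H → X → ZMod 2) (b : ℕ → X → H × ℤ)

noncomputable def solS (h : H) (x : X) : ZMod 2 :=
  lim2 (fun n => gG ι ρ α b n (x + ι h) + gG ι ρ α b n x)

noncomputable def solPsi (x : X) : ZMod 2 :=
  lim2 (fun n => α (b n x).1 x + (gG ι ρ α b n (x + ρ) + gG ι ρ α b n x))

theorem cocycle_zero (hα : ∀ h k x, α (h + k) x = α h x + α k (x + ι h)) (x : X) :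
    α 0 x = 0 := by
  have := hα 0 0 x
  simp at this
  exact this

theorem persist (hc : ∀ n x γ, b n x = γ + b n (x + iact ι ρ γ) →
      b (n + 1) x = γ + b (n + 1) (x + iact ι ρ γ)) {x : X} {γ : H × ℤ} {n : ℕ}
    (h : b n x = γ + b n (x + iact ι ρ γ)) {m : ℕ} (hm : n ≤ m) :
    b m x = γ + b m (x + iact ι ρ γ) := by
  induction m, hm using Nat.le_induction with
  | base => exact h
  | succ m hm ih => exact hc m x γ ih

theorem solS_eq (hc : ∀ n x γ, b n x = γ + b n (x + iact ι ρ γ) →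
      b (n + 1) x = γ + b (n + 1) (x + iact ι ρ γ)) {x : X} {h : H} {n : ℕ}
    (hx : b n x = (h, 0) + b n (x + iact ι ρ (h, 0))) {m : ℕ} (hm : n ≤ m) :
    gG ι ρ α b m (x + ι h) + gG ι ρ α b m x = solS ι ρ α b h x := by
  refine exists_eq_lim2 (u := fun n => gG ι ρ α b n (x + ι h) + gG ι ρ α b n x) (n := n) ?_ m hm
  intro k hk
  have e1 := persist ι ρ b hc hx hk
  have e2 := persist ι ρ b hc hx (hk.trans (Nat.le_succ k))
  have e0 : iact ι ρ (h, 0) = ι h := by simp
  rw [e0] at e1 e2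
  have f1 : (b (k + 1) x).1 - (b k x).1 =
      (b (k + 1) (x + ι h)).1 - (b k (x + ι h)).1 := by
    rw [e1, show k + 1 = k.succ from rfl, e2]; simp
  have f2 : (b k x).2 = (b k (x + ι h)).2 := by
    rw [e1]; simp
  have f3 : x + iact ι ρ (b k x) = x + ι h + iact ι ρ (b k (x + ι h)) := by
    rw [e1, map_add, e0]; abel
  simp only [gG_succ]
  rw [f1, f2, f3]
  linear_combination (sS ρ (α ((b (k + 1) (x + ι h)).1 - (b k (x + ι h)).1))
    (-(b k (x + ι h)).2) (x + ι h + iact ι ρ (b k (x + ι h)))) * two_zero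

theorem solPsi_eq (hα : ∀ h k x, α (h + k) x = α h x + α k (x + ι h))
    (hc : ∀ n x γ, b n x = γ + b n (x + iact ι ρ γ) →
      b (n + 1) x = γ + b (n + 1) (x + iact ι ρ γ)) {x : X} {n : ℕ}
    (hx : b n x = (0, 1) + b n (x + iact ι ρ (0, 1))) {m : ℕ} (hm : n ≤ m) :
    α (b m x).1 x + (gG ι ρ α b m (x + ρ) + gG ι ρ α b m x) = solPsi ι ρ α b x := by
  refine exists_eq_lim2 (u := fun n => α (b n x).1 x + (gG ι ρ α b n (x + ρ) + gG ι ρ α b n x))
    (n := n) ?_ m hm
  intro k hk
  have e1 := persist ι ρ b hc hx hk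
  have e2 := persist ι ρ b hc hx (hk.trans (Nat.le_succ k))
  have e0 : iact ι ρ (0, 1) = ρ := by simp
  rw [e0] at e1 e2
  have f1 : (b (k + 1) (x + ρ)).1 - (b k (x + ρ)).1 = (b (k + 1) x).1 - (b k x).1 := by
    rw [e1, show k + 1 = k.succ from rfl, e2]; simp
  have f2 : -(b k (x + ρ)).2 = -(b k x).2 + 1 := by
    rw [e1]; simp
  have f3 : x + ρ + iact ι ρ (b k (x + ρ)) = x + iact ι ρ (b k x) := by
    rw [e1, map_add, e0]; abel
  simp only [gG_succ]
  rw [f1, f2, f3, sS_succ]
  have f4 : x + iact ι ρ (b k x) + (-(b k x).2) • ρ = x + ι (b k x).1 := by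
    simp
    abel
  rw [f4]
  have f5 : α (b (k + 1) x).1 x = α (b k x).1 x +
      α ((b (k + 1) x).1 - (b k x).1) (x + ι (b k x).1) := by
    rw [← hα]
    congr 1
    abel
  rw [f5]
  linear_combination (α ((b (k + 1) x).1 - (b k x).1) (x + ι (b k x).1) +
    sS ρ (α ((b (k + 1) x).1 - (b k x).1)) (-(b k x).2) (x + iact ι ρ (b k x))) * two_zero

/-- **Lemma G.** -/
theorem lemmaG_eq (hα : ∀ h k x, α (h + k) x = α h x + α k (x + ι h))
    (hc : ∀ n x γ, b n x = γ + b n (x + iact ι ρ γ) →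
      b (n + 1) x = γ + b (n + 1) (x + iact ι ρ γ))
    (Y : Set X) (hY : ∀ x ∈ Y, ∀ γ, x + iact ι ρ γ ∈ Y)
    (hm : ∀ x ∈ Y, ∀ γ, ∃ n, b n x = γ + b n (x + iact ι ρ γ)) (x : X) (hx : x ∈ Y) (h : H) :
    α h x = solS ι ρ α b h (x + ρ) + solS ι ρ α b h x + solPsi ι ρ α b (x + ι h) +
      solPsi ι ρ α b x := by
  have e0 : iact ι ρ (0, 1) = ρ := by simp
  have e1 : iact ι ρ (h, 0) = ι h := by simp
  have hxρ : x + ρ ∈ Y := by have := hY x hx (0, 1); rwa [e0] at this
  have hxh : x + ι h ∈ Y := by have := hY x hx (h, 0); rwa [e1] at this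
  obtain ⟨n1, h1⟩ := hm x hx (h, 0)
  obtain ⟨n2, h2⟩ := hm (x + ρ) hxρ (h, 0)
  obtain ⟨n3, h3⟩ := hm x hx (0, 1)
  obtain ⟨n4, h4⟩ := hm (x + ι h) hxh (0, 1)
  set m := max (max n1 n2) (max n3 n4) with hmdef
  have g1 := solS_eq ι ρ α b hc h1 (m := m) ((le_max_left _ _).trans (le_max_left _ _))
  have g2 := solS_eq ι ρ α b hc h2 (m := m) ((le_max_right _ _).trans (le_max_left _ _))
  have g3 := solPsi_eq ι ρ α b hα hc h3 (m := m) ((le_max_left _ _).trans (le_max_right _ _))
  have g4 := solPsi_eq ι ρ α b hα hc h4 (m := m) ((le_max_right _ _).trans (le_max_right _ _))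
  rw [← g1, ← g2, ← g3, ← g4]
  have h1' := persist ι ρ b hc h1 (m := m) ((le_max_left _ _).trans (le_max_left _ _))
  rw [e1] at h1'
  have h5 : α (b m x).1 x = α h x + α (b m (x + ι h)).1 (x + ι h) := by
    rw [h1', ← hα]
    rfl
  rw [h5, add_right_comm x ρ (ι h)]
  linear_combination (-(gG ι ρ α b m (x + ι h + ρ) + gG ι ρ α b m (x + ρ) + gG ι ρ α b m (x + ι h)
    + gG ι ρ α b m x + α (b m (x + ι h)).1 (x + ι h))) * two_zero

theorem solS_comm (hc : ∀ n x γ, b n x = γ + b n (x + iact ι ρ γ) →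
      b (n + 1) x = γ + b (n + 1) (x + iact ι ρ γ))
    (Y : Set X) (hY : ∀ x ∈ Y, ∀ γ, x + iact ι ρ γ ∈ Y)
    (hm : ∀ x ∈ Y, ∀ γ, ∃ n, b n x = γ + b n (x + iact ι ρ γ)) (x : X) (hx : x ∈ Y) (h k : H) :
    solS ι ρ α b (h + k) x = solS ι ρ α b h x + solS ι ρ α b k (x + ι h) := by
  have e1 : iact ι ρ (h, 0) = ι h := by simp
  have hxh : x + ι h ∈ Y := by have := hY x hx (h, 0); rwa [e1] at this
  obtain ⟨n1, h1⟩ := hm x hx (h + k, 0)
  obtain ⟨n2, h2⟩ := hm x hx (h, 0)
  obtain ⟨n3, h3⟩ := hm (x + ι h) hxh (k, 0)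
  set m := max n1 (max n2 n3) with hmdef
  have g1 := solS_eq ι ρ α b hc h1 (m := m) (le_max_left _ _)
  have g2 := solS_eq ι ρ α b hc h2 (m := m) ((le_max_left _ _).trans (le_max_right _ _))
  have g3 := solS_eq ι ρ α b hc h3 (m := m) ((le_max_right _ _).trans (le_max_right _ _))
  rw [← g1, ← g2, ← g3, map_add, ← add_assoc x]
  linear_combination (-(gG ι ρ α b m (x + ι h))) * two_zero

theorem gG_period (p : X) (hb : ∀ n x, b n (x + p) = b n x)
    (hα : ∀ h x, α h (x + p) = α h x) (n : ℕ) (x : X) :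
    gG ι ρ α b n (x + p) = gG ι ρ α b n x := by
  unfold gG
  apply Finset.sum_congr rfl
  intro m _
  rw [hb, hb, add_right_comm, sS_period]
  exact hα _

theorem solS_period (p : X) (hb : ∀ n x, b n (x + p) = b n x)
    (hα : ∀ h x, α h (x + p) = α h x) (h : H) (x : X) :
    solS ι ρ α b h (x + p) = solS ι ρ α b h x := by
  unfold solS
  congr 1
  ext n
  rw [add_right_comm, gG_period ι ρ α b p hb hα, gG_period ι ρ α b p hb hα]

theorem solPsi_period (p : X) (hb : ∀ n x, b n (x + p) = b n x)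
    (hα : ∀ h x, α h (x + p) = α h x) (x : X) :
    solPsi ι ρ α b (x + p) = solPsi ι ρ α b x := by
  unfold solPsi
  congr 1
  ext n
  rw [add_right_comm, gG_period ι ρ α b p hb hα, gG_period ι ρ α b p hb hα, hb, hα]

variable [MeasurableSpace X] [MeasurableAdd₂ X] [MeasurableSpace H] [DiscreteMeasurableSpace H]
  [Countable H]

theorem measurable_sS (ρ : X) {f : X → ZMod 2} (hf : Measurable f) (k : ℤ) :
    Measurable (sS ρ f k) := by
  unfold sS
  have hadd : MeasurableAdd₂ (ZMod 2) := ⟨measurable_of_countable _⟩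
  exact Finset.measurable_sum _ fun j _ => hf.comp (measurable_id.add_const _)

theorem measurable_sSp (hα : ∀ h, Measurable (α h)) :
    Measurable (fun p : (H × ℤ) × X => sS ρ (α p.1.1) p.1.2 p.2) := by
  apply measurable_from_prod_countable_right
  intro γ
  exact measurable_sS ρ (hα γ.1) γ.2

theorem measurable_gG (hα : ∀ h, Measurable (α h)) (hb : ∀ n, Measurable (b n)) (n : ℕ) :
    Measurable (gG ι ρ α b n) := by
  unfold gG
  have hadd : MeasurableAdd₂ (ZMod 2) := ⟨measurable_of_countable _⟩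
  apply Finset.measurable_sum
  intro m _
  have h1 : Measurable (fun p : (H × ℤ) × X => sS ρ (α p.1.1) p.1.2 p.2) :=
    measurable_sSp ρ α hα
  have h2 : Measurable (fun x : X => (((b (m + 1) x).1 - (b m x).1, -(b m x).2),
      x + iact ι ρ (b m x))) := by
    refine Measurable.prodMk (Measurable.prodMk ?_ ?_) ?_
    · have : Measurable (fun p : (H × ℤ) × (H × ℤ) => p.1.1 - p.2.1) :=
        measurable_of_countable _
      exact this.comp ((hb (m + 1)).prodMk (hb m))
    · have : Measurable (fun p : (H × ℤ) => -p.2) := measurable_of_countable _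
      exact this.comp (hb m)
    · have : Measurable (iact ι ρ : H × ℤ → X) := measurable_of_countable _
      exact measurable_id.add (this.comp (hb m))
  have h3 := h1.comp h2
  simpa only [Function.comp_def] using h3

theorem measurable_solS (hα : ∀ h, Measurable (α h)) (hb : ∀ n, Measurable (b n)) (h : H) :
    Measurable (solS ι ρ α b h) := by
  have hadd : MeasurableAdd₂ (ZMod 2) := ⟨measurable_of_countable _⟩
  apply measurable_lim2
  intro n
  exact ((measurable_gG ι ρ α b hα hb n).comp (measurable_id.add_const _)).add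
    (measurable_gG ι ρ α b hα hb n)

theorem measurable_solPsi (hα : ∀ h, Measurable (α h)) (hb : ∀ n, Measurable (b n)) :
    Measurable (solPsi ι ρ α b) := by
  have hadd : MeasurableAdd₂ (ZMod 2) := ⟨measurable_of_countable _⟩
  apply measurable_lim2
  intro n
  have h1 : Measurable (fun p : H × X => α p.1 p.2) := by
    apply measurable_from_prod_countable_right
    intro γ
    exact hα γ
  have h2 : Measurable (fun x : X => ((b n x).1, x)) :=
    (measurable_fst.comp (hb n)).prodMk measurable_id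
  have h3 : Measurable (fun x : X => α (b n x).1 x) := by
    simpa only [Function.comp_def] using h1.comp h2
  have h4 : Measurable (fun x : X => gG ι ρ α b n (x + ρ) + gG ι ρ α b n x) :=
    ((measurable_gG ι ρ α b hα hb n).comp (measurable_id.add_const _)).add
      (measurable_gG ι ρ α b hα hb n)
  exact h3.add h4

end G

end Pool.Agent.Canc
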