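import Pool.Agent.Lib_helper74.Canc.Merge
import Pool.Agent.Lib_helper74.Canc.Cocycle

set_option linter.unusedSectionVars false

namespace Pool.Agent.Canc

open Filter Topology Set

section mergeX

variable {X T Γ : Type*} [AddCommGroup T] [TopologicalSpace T] [IsTopologicalAddGroup T] [T2Space T]
  [SecondCountableTopology T] [MeasurableSpace T] [BorelSpace T]
  [AddCommGroup X] [TopologicalSpace X] [IsTopologicalAddGroup X]
  [MeasurableSpace X] [BorelSpace X]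
  [AddCommGroup Γ] [MeasurableSpace Γ] [DiscreteMeasurableSpace Γ] [Countable Γ]

theorem exists_merge_X (π : X →+ T) (hπc : Continuous π) (hπo : IsOpenMap π)
    (J : Γ →+ X) (hJ : Function.Injective (fun γ => π (J γ))) (S : Finset Γ)
    (hS : AddSubgroup.closure (S : Set Γ) = ⊤) :
    ∃ (b : ℕ → X → Γ) (Y : Set X), (∀ n, Measurable (b n)) ∧
      (∀ n x p, π p = 0 → b n (x + p) = b n x) ∧
      (∀ n x γ, b n x = γ + b n (x + J γ) → b (n + 1) x = γ + b (n + 1) (x + J γ)) ∧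
      Y ∈ residual X ∧ (∀ x ∈ Y, ∀ γ, x + J γ ∈ Y) ∧
      (∀ x ∈ Y, ∀ γ, ∃ n, b n x = γ + b n (x + J γ)) := by
  obtain ⟨b, D, hbm, hDo, hDd, hbc, hbS⟩ := exists_merge (π.comp J) hJ S
  have hc : ∀ n x γ, b n (π x) = γ + b n (π (x + J γ)) →
      b (n + 1) (π x) = γ + b (n + 1) (π (x + J γ)) := by
    intro n x γ h
    have := hbc n (π x) γ
    simp only [AddMonoidHom.comp_apply, ← map_add] at this
    exact this h
  have hpers : ∀ x γ n, b n (π x) = γ + b n (π (x + J γ)) → ∀ m, n ≤ m →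
      b m (π x) = γ + b m (π (x + J γ)) := by
    intro x γ n h m hm
    induction m, hm using Nat.le_induction with
    | base => exact h
    | succ m hm ih => exact hc m x γ ih
  refine ⟨fun n x => b n (π x), {x | ∀ γ, π (x + J γ) ∈ D}, fun n => (hbm n).comp hπc.measurable,
    ?_, hc, ?_, ?_, ?_⟩
  · intro n x p hp
    simp only [map_add, hp, add_zero]
  · have : {x | ∀ γ, π (x + J γ) ∈ D} = ⋂ γ, (fun x => π (x + J γ)) ⁻¹' D := by
      ext x; simp
    rw [this]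
    rw [countable_iInter_mem]
    intro γ
    have ho : IsOpenMap (fun x => π (x + J γ)) := hπo.comp (isOpenMap_add_right (J γ))
    have hcont : Continuous (fun x => π (x + J γ)) := hπc.comp (continuous_id.add continuous_const)
    exact residual_of_dense_open (hDo.preimage hcont) (hDd.preimage ho)
  · intro x hx γ δ
    rw [add_assoc, ← map_add]
    exact hx _
  · intro x hx γ
    have hγ : γ ∈ AddSubgroup.closure (S : Set Γ) := by rw [hS]; trivial
    revert x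
    induction hγ using AddSubgroup.closure_induction with
    | mem δ hδ =>
      intro x hx
      have h0 := hx 0
      rw [map_zero, add_zero] at h0
      obtain ⟨n, hn⟩ := hbS (π x) h0 δ hδ
      refine ⟨n, ?_⟩
      simpa only [AddMonoidHom.comp_apply, ← map_add] using hn
    | zero => intro x hx; exact ⟨0, by simp⟩
    | add δ δ' _ _ ih ih' =>
      intro x hx
      obtain ⟨n, hn⟩ := ih x hx
      have hx' : x + J δ ∈ {x | ∀ γ, π (x + J γ) ∈ D} := by
        intro γ'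
        rw [add_assoc, ← map_add]
        exact hx _
      obtain ⟨n', hn'⟩ := ih' (x + J δ) hx'
      refine ⟨max n n', ?_⟩
      have e1 := hpers x δ n hn (max n n') (le_max_left _ _)
      have e2 := hpers (x + J δ) δ' n' hn' (max n n') (le_max_right _ _)
      show b _ (π x) = _ + b _ (π _)
      rw [e1, e2, map_add J, ← add_assoc x, add_assoc δ]
    | neg δ _ ih =>
      intro x hx
      have hx' : x + J (-δ) ∈ {x | ∀ γ, π (x + J γ) ∈ D} := by
        intro γ'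
        rw [add_assoc, ← map_add]
        exact hx _
      obtain ⟨n, hn⟩ := ih _ hx'
      refine ⟨n, ?_⟩
      have : x + J (-δ) + J δ = x := by rw [map_neg]; abel
      rw [this] at hn
      change b n (π (x + J (-δ))) = δ + b n (π x) at hn
      show b n (π x) = -δ + b n (π (x + J (-δ)))
      rw [hn]
      abel

end mergeX

section A23

theorem int_const {F : ℤ → ZMod 2} (h : ∀ k, F (k + 1) = F k) (k : ℤ) : F k = F 0 := by
  induction k using Int.induction_on with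
  | zero => rfl
  | succ i ih => rw [h, ih]
  | pred i ih => rw [← ih, ← h (-i - 1)]; congr 1; ring

variable {X : Type*} [AddCommGroup X]

theorem sS_add (ρ : X) (f : X → ZMod 2) (h k : ℤ) (x : X) :
    sS ρ f (h + k) x = sS ρ f h x + sS ρ f k (x + h • ρ) := by
  have := int_const (F := fun k => sS ρ f (h + k) x + sS ρ f h x + sS ρ f k (x + h • ρ)) ?_ k
  · simp only [add_zero, sS_zero] at this
    linear_combination this + (sS ρ f h x) * two_zero -
      (sS ρ f h x + sS ρ f k (x + h • ρ)) * two_zero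
  · intro k
    rw [← add_assoc h k 1, sS_succ, sS_succ]
    have : x + h • ρ + k • ρ = x + (h + k) • ρ := by rw [add_smul, add_assoc]
    rw [this]
    linear_combination (f (x + (h + k) • ρ)) * two_zero

theorem sS_one (ρ : X) (f : X → ZMod 2) (x : X) : sS ρ f 1 x = f x := by
  have := sS_succ ρ f 0 x
  simpa [sS_zero] using this

/-- integer multiples -/
def zhom (ρ : X) : ℤ →+ X where
  toFun a := a • ρ
  map_zero' := by simp
  map_add' a b := by simp [add_smul]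

@[simp] theorem zhom_apply (ρ : X) (a : ℤ) : zhom ρ a = a • ρ := rfl

/-- the 1-cocycle of `ℤ × ℤ` with given values on the generators -/
noncomputable def al2 (ρ₁ ρ₂ : X) (f₁ f₂ : X → ZMod 2) (h : ℤ × ℤ) (x : X) : ZMod 2 :=
  sS ρ₁ f₁ h.1 x + sS ρ₂ f₂ h.2 (x + h.1 • ρ₁)

theorem al2_cocycle (ρ₁ ρ₂ : X) (f₁ f₂ : X → ZMod 2)
    (hf : ∀ x, (f₁ (x + ρ₂) + f₁ x) + (f₂ (x + ρ₁) + f₂ x) = 0) (h k : ℤ × ℤ) (x : X) :
    al2 ρ₁ ρ₂ f₁ f₂ (h + k) x = al2 ρ₁ ρ₂ f₁ f₂ h x +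
      al2 ρ₁ ρ₂ f₁ f₂ k (x + iact (zhom ρ₁) ρ₂ h) := by
  have C1 : ∀ (b : ℤ) (y : X), f₁ y + f₁ (y + b • ρ₂) + sS ρ₂ f₂ b (y + ρ₁) + sS ρ₂ f₂ b y = 0 := by
    intro b y
    have := int_const (F := fun b => f₁ y + f₁ (y + b • ρ₂) + sS ρ₂ f₂ b (y + ρ₁) +
      sS ρ₂ f₂ b y) ?_ b
    · simp only [sS_zero, zero_smul, add_zero] at this
      rw [this]
      linear_combination (f₁ y) * two_zero
    · intro b
      rw [sS_succ, sS_succ, add_smul, one_smul, ← add_assoc y]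
      have := hf (y + b • ρ₂)
      rw [add_right_comm y ρ₁ (b • ρ₂)]
      linear_combination this - (f₁ (y + b • ρ₂)) * two_zero
  have C2 : ∀ (a b : ℤ) (y : X), sS ρ₁ f₁ a y + sS ρ₁ f₁ a (y + b • ρ₂) +
      sS ρ₂ f₂ b (y + a • ρ₁) + sS ρ₂ f₂ b y = 0 := by
    intro a b y
    have := int_const (F := fun a => sS ρ₁ f₁ a y + sS ρ₁ f₁ a (y + b • ρ₂) +
      sS ρ₂ f₂ b (y + a • ρ₁) + sS ρ₂ f₂ b y) ?_ a
    · simp only [sS_zero, zero_smul, add_zero] at this
      rw [this]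
      linear_combination (sS ρ₂ f₂ b y) * two_zero
    · intro a
      rw [sS_succ, sS_succ, add_smul, one_smul, ← add_assoc y]
      have := C1 b (y + a • ρ₁)
      rw [add_right_comm y (b • ρ₂) (a • ρ₁)]
      linear_combination this - (sS ρ₂ f₂ b (y + a • ρ₁)) * two_zero
  unfold al2
  simp only [Prod.fst_add, Prod.snd_add, iact_apply, zhom_apply]
  rw [sS_add, sS_add]
  have e1 : x + (h.1 + k.1) • ρ₁ = x + h.1 • ρ₁ + k.1 • ρ₁ := by
    rw [add_smul, add_assoc]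
  have e2 : x + h.1 • ρ₁ + k.1 • ρ₁ + h.2 • ρ₂ = x + (h.1 • ρ₁ + h.2 • ρ₂) + k.1 • ρ₁ := by
    abel
  have e3 : x + (h.1 • ρ₁ + h.2 • ρ₂) = x + h.1 • ρ₁ + h.2 • ρ₂ := by abel
  rw [e1, e2, e3]
  have := C2 k.1 h.2 (x + h.1 • ρ₁)
  linear_combination this - (sS ρ₁ f₁ k.1 (x + h.1 • ρ₁ + h.2 • ρ₂)  +
    sS ρ₂ f₂ h.2 (x + h.1 • ρ₁)) * two_zero

end A23

section final

variable {X T : Type*} [AddCommGroup T] [TopologicalSpace T] [IsTopologicalAddGroup T] [T2Space T]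
  [SecondCountableTopology T] [MeasurableSpace T] [BorelSpace T]
  [AddCommGroup X] [TopologicalSpace X] [IsTopologicalAddGroup X]
  [MeasurableSpace X] [BorelSpace X] [MeasurableAdd₂ X]

theorem lemmaA2 (π : X →+ T) (hπc : Continuous π) (hπo : IsOpenMap π) (ρ₁ ρ₂ : X)
    (hinj : ∀ a b : ℤ, a • π ρ₁ + b • π ρ₂ = 0 → a = 0 ∧ b = 0)
    (p : X) (hp : π p = 0)
    (c : X → ZMod 2) (hc : Measurable c) (hcp : ∀ x, c (x + p) = c x) :
    ∃ d₁ d₂ : X → ZMod 2, Measurable d₁ ∧ Measurable d₂ ∧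
      (∀ x, d₁ (x + p) = d₁ x) ∧ (∀ x, d₂ (x + p) = d₂ x) ∧
      ∀ᶠ x in residual X, c x = (d₁ (x + ρ₁) + d₁ x) + (d₂ (x + ρ₂) + d₂ x) := by
  obtain ⟨b, Y, hbm, hbp, hbc, hYr, hYi, hYm⟩ := exists_merge_X π hπc hπo
    (iact (zhom ρ₁) ρ₂) (by
      have : Function.Injective (π.comp (iact (zhom ρ₁) ρ₂)) := by
        rw [injective_iff_map_eq_zero]
        rintro ⟨a, b⟩ h
        simp only [AddMonoidHom.comp_apply, iact_apply, zhom_apply, map_add, map_zsmul] at h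
        obtain ⟨ha, hb⟩ := hinj a b h
        rw [ha, hb]; rfl
      exact this) {(1, 0), (0, 1)} (by
      rw [eq_top_iff]
      rintro ⟨a, b⟩ _
      have : (a, b) = a • ((1 : ℤ), (0 : ℤ)) + b • ((0 : ℤ), (1 : ℤ)) := by simp
      rw [this]
      exact add_mem (AddSubgroup.zsmul_mem _ (AddSubgroup.subset_closure (by simp)) _)
        (AddSubgroup.zsmul_mem _ (AddSubgroup.subset_closure (by simp)) _))
  have hαm : ∀ h : ℤ, Measurable (sS ρ₁ c h) := fun h => measurable_sS ρ₁ hc h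
  have hαp : ∀ (h : ℤ) x, sS ρ₁ c h (x + p) = sS ρ₁ c h x :=
    fun h x => sS_period ρ₁ c h x p (fun y => hcp y)
  refine ⟨solPsi (zhom ρ₁) ρ₂ (sS ρ₁ c) b, solS (zhom ρ₁) ρ₂ (sS ρ₁ c) b 1,
    measurable_solPsi _ _ _ _ hαm hbm, measurable_solS _ _ _ _ hαm hbm _,
    fun x => solPsi_period _ _ _ _ p (fun n x => hbp n x p hp) hαp x,
    fun x => solS_period _ _ _ _ p (fun n x => hbp n x p hp) hαp 1 x, ?_⟩
  filter_upwards [hYr] with x hx
  have := lemmaG_eq (zhom ρ₁) ρ₂ (sS ρ₁ c) b (fun h k x => sS_add ρ₁ c h k x) hbc Y hYi hYm x hx 1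
  rw [sS_one] at this
  rw [this]
  simp only [zhom_apply, one_smul]
  ring

theorem lemmaA3 (π : X →+ T) (hπc : Continuous π) (hπo : IsOpenMap π) (ρ₁ ρ₂ ρ₃ : X)
    (hinj : ∀ a b c : ℤ, a • π ρ₁ + b • π ρ₂ + c • π ρ₃ = 0 → a = 0 ∧ b = 0 ∧ c = 0)
    (p : X) (hp : π p = 0)
    (h₁ h₂ : X → ZMod 2) (hm₁ : Measurable h₁) (hm₂ : Measurable h₂)
    (hp₁ : ∀ x, h₁ (x + p) = h₁ x) (hp₂ : ∀ x, h₂ (x + p) = h₂ x)
    (hh : ∀ᶠ x in residual X, (h₁ (x + ρ₁) + h₁ x) + (h₂ (x + ρ₂) + h₂ x) = 0) :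
    ∃ s₁₂ s₁₃ s₂₃ : X → ZMod 2, (Measurable s₁₂ ∧ Measurable s₁₃ ∧ Measurable s₂₃) ∧
      ((∀ x, s₁₂ (x + p) = s₁₂ x) ∧ (∀ x, s₁₃ (x + p) = s₁₃ x) ∧
        (∀ x, s₂₃ (x + p) = s₂₃ x)) ∧
      (∀ᶠ x in residual X, h₁ x = (s₁₂ (x + ρ₂) + s₁₂ x) + (s₁₃ (x + ρ₃) + s₁₃ x)) ∧
      (∀ᶠ x in residual X, h₂ x = (s₁₂ (x + ρ₁) + s₁₂ x) + (s₂₃ (x + ρ₃) + s₂₃ x)) ∧
      (∀ᶠ x in residual X, (s₁₃ (x + ρ₁) + s₁₃ x) + (s₂₃ (x + ρ₂) + s₂₃ x) = 0) := by
  classical
  obtain ⟨b, Y, hbm, hbp, hbc, hYr, hYi, hYm⟩ := exists_merge_X π hπc hπo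
    (iact (iact (zhom ρ₁) ρ₂) ρ₃) (by
      have : Function.Injective (π.comp (iact (iact (zhom ρ₁) ρ₂) ρ₃)) := by
        rw [injective_iff_map_eq_zero]
        rintro ⟨⟨a, b⟩, c⟩ h
        simp only [AddMonoidHom.comp_apply, iact_apply, zhom_apply, map_add, map_zsmul] at h
        obtain ⟨ha, hb, hc⟩ := hinj a b c h
        rw [ha, hb, hc]; rfl
      exact this) {((1, 0), 0), ((0, 1), 0), ((0, 0), 1)} (by
      rw [eq_top_iff]
      rintro ⟨⟨a, b⟩, c⟩ _
      have : ((a, b), c) = a • (((1 : ℤ), (0 : ℤ)), (0 : ℤ)) + b • (((0 : ℤ), (1 : ℤ)), (0 : ℤ))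
        + c • (((0 : ℤ), (0 : ℤ)), (1 : ℤ)) := by simp
      rw [this]
      exact add_mem (add_mem
        (AddSubgroup.zsmul_mem _ (AddSubgroup.subset_closure (by simp)) _)
        (AddSubgroup.zsmul_mem _ (AddSubgroup.subset_closure (by simp)) _))
        (AddSubgroup.zsmul_mem _ (AddSubgroup.subset_closure (by simp)) _))
  set J := iact (iact (zhom ρ₁) ρ₂) ρ₃ with hJ
  have hadd2 : MeasurableAdd₂ (ZMod 2) := ⟨measurable_of_countable _⟩
  -- the invariant set where the cocycle equation holds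
  let E : Set X := {x | (h₁ (x + ρ₁) + h₁ x) + (h₂ (x + ρ₂) + h₂ x) = 0}
  have hEm : MeasurableSet E := by
    have : Measurable (fun x => (h₁ (x + ρ₁) + h₁ x) + (h₂ (x + ρ₂) + h₂ x)) :=
      ((hm₁.comp (measurable_id.add_const _)).add hm₁).add
        ((hm₂.comp (measurable_id.add_const _)).add hm₂)
    exact this (measurableSet_singleton 0)
  let Z : Set X := {x | ∀ γ, x + J γ ∈ E}
  have hZe : Z = ⋂ γ, (fun x => x + J γ) ⁻¹' E := by ext x; simp [Z]
  have hZm : MeasurableSet Z := by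
    rw [hZe]
    exact MeasurableSet.iInter fun γ => (measurable_id.add_const _) hEm
  have hZr : Z ∈ residual X := by
    rw [hZe, countable_iInter_mem]
    intro γ
    exact (tendsto_residual_of_isOpenMap (continuous_id.add continuous_const)
      (isOpenMap_add_right (J γ))) hh
  have hZi : ∀ x γ, x + J γ ∈ Z ↔ x ∈ Z := by
    intro x γ
    constructor
    · intro h γ'
      have := h (γ' - γ)
      rw [add_assoc, ← map_add] at this
      simpa using this
    · intro h γ'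
      rw [add_assoc, ← map_add]
      exact h _
  have hZ1 : ∀ x, x + ρ₁ ∈ Z ↔ x ∈ Z := by
    intro x; have := hZi x ((1, 0), 0); simpa [hJ] using this
  have hZ2 : ∀ x, x + ρ₂ ∈ Z ↔ x ∈ Z := by
    intro x; have := hZi x ((0, 1), 0); simpa [hJ] using this
  have hZp : ∀ x, (x + p ∈ Z ↔ x ∈ Z) := by
    intro x
    have : ∀ y, y + p ∈ E ↔ y ∈ E := by
      intro y
      simp only [E, mem_ofPred_eq]
      rw [add_right_comm y p ρ₁, add_right_comm y p ρ₂, hp₁, hp₁, hp₂, hp₂]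
    simp only [Z, mem_ofPred_eq]
    constructor
    · intro h γ
      rw [← this, add_right_comm]
      exact h γ
    · intro h γ
      rw [add_right_comm, this]
      exact h γ
  let f₁ : X → ZMod 2 := fun x => if x ∈ Z then h₂ x else 0
  let f₂ : X → ZMod 2 := fun x => if x ∈ Z then h₁ x else 0
  have hf₁m : Measurable f₁ := Measurable.ite hZm hm₂ measurable_const
  have hf₂m : Measurable f₂ := Measurable.ite hZm hm₁ measurable_const
  have hf₁p : ∀ x, f₁ (x + p) = f₁ x := by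
    intro x
    simp only [f₁, hZp x, hp₂ x]
  have hf₂p : ∀ x, f₂ (x + p) = f₂ x := by
    intro x
    simp only [f₂, hZp x, hp₁ x]
  have hf : ∀ x, (f₁ (x + ρ₂) + f₁ x) + (f₂ (x + ρ₁) + f₂ x) = 0 := by
    intro x
    simp only [f₁, f₂, hZ1, hZ2]
    split_ifs with hx
    · have : x ∈ E := by have := hx 0; simpa using this
      simp only [E, mem_ofPred_eq] at this
      linear_combination this
    · simp
  set α := al2 ρ₁ ρ₂ f₁ f₂ with hαdef
  have hαc := al2_cocycle ρ₁ ρ₂ f₁ f₂ hf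
  have hαm : ∀ h : ℤ × ℤ, Measurable (α h) := fun h =>
    (measurable_sS ρ₁ hf₁m h.1).add ((measurable_sS ρ₂ hf₂m h.2).comp (measurable_id.add_const _))
  have hαp : ∀ (h : ℤ × ℤ) x, α h (x + p) = α h x := by
    intro h x
    simp only [hαdef, al2]
    rw [sS_period ρ₁ f₁ h.1 x p hf₁p, add_right_comm, sS_period ρ₂ f₂ h.2 _ p hf₂p]
  have hα10 : ∀ x, α (1, 0) x = f₁ x := by
    intro x; simp [hαdef, al2, sS_one, sS_zero]
  have hα01 : ∀ x, α (0, 1) x = f₂ x := by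
    intro x; simp [hαdef, al2, sS_one, sS_zero]
  refine ⟨solPsi (iact (zhom ρ₁) ρ₂) ρ₃ α b, solS (iact (zhom ρ₁) ρ₂) ρ₃ α b (0, 1),
    solS (iact (zhom ρ₁) ρ₂) ρ₃ α b (1, 0),
    ⟨measurable_solPsi _ _ _ _ hαm hbm, measurable_solS _ _ _ _ hαm hbm _,
      measurable_solS _ _ _ _ hαm hbm _⟩,
    ⟨fun x => solPsi_period _ _ _ _ p (fun n x => hbp n x p hp) hαp x,
    fun x => solS_period _ _ _ _ p (fun n x => hbp n x p hp) hαp _ x,
    fun x => solS_period _ _ _ _ p (fun n x => hbp n x p hp) hαp _ x⟩, ?_, ?_, ?_⟩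
  · filter_upwards [hYr, hZr] with x hx hxZ
    have := lemmaG_eq (iact (zhom ρ₁) ρ₂) ρ₃ α b hαc hbc Y hYi hYm x hx (0, 1)
    rw [hα01] at this
    simp only [f₂, hxZ, if_true] at this
    rw [this]
    simp
    ring
  · filter_upwards [hYr, hZr] with x hx hxZ
    have := lemmaG_eq (iact (zhom ρ₁) ρ₂) ρ₃ α b hαc hbc Y hYi hYm x hx (1, 0)
    rw [hα10] at this
    simp only [f₁, hxZ, if_true] at this
    rw [this]
    simp
    ring
  · filter_upwards [hYr] with x hx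
    have e1 := solS_comm (iact (zhom ρ₁) ρ₂) ρ₃ α b hbc Y hYi hYm x hx (1, 0) (0, 1)
    have e2 := solS_comm (iact (zhom ρ₁) ρ₂) ρ₃ α b hbc Y hYi hYm x hx (0, 1) (1, 0)
    rw [add_comm ((0, 1) : ℤ × ℤ) (1, 0)] at e2
    rw [e1] at e2
    simp at e2
    linear_combination e2 + (solS (iact (zhom ρ₁) ρ₂) ρ₃ α b (0, 1) x +
      solS (iact (zhom ρ₁) ρ₂) ρ₃ α b (1, 0) (x + ρ₂)) * two_zero

end final

end Pool.Agent.Canc
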