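import Mathlib

/-!
Generic merging of orbits for a free translation action of a countable group on a topological
group (a trivial form of generic hyperfiniteness).
-/

set_option linter.unusedSectionVars false

namespace Pool.Agent.Canc

open Filter Topology Set Pointwise

section small

variable {T Γ : Type*} [AddCommGroup T] [TopologicalSpace T] [IsTopologicalAddGroup T] [T2Space T]
  [AddCommGroup Γ]

theorem exists_small_nhd (θ : Γ →+ T) (hθ : Function.Injective θ) (F : Finset Γ) :
    ∃ U : Set T, IsOpen U ∧ (0 : T) ∈ U ∧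
      ∀ γ ∈ F, ∀ γ' ∈ F, ∀ y : T, y + θ γ ∈ U → y + θ γ' ∈ U → γ = γ' := by
  classical
  have h1 : ∀ p ∈ (F ×ˢ F : Finset (Γ × Γ)), ∃ U : Set T, IsOpen U ∧ (0 : T) ∈ U ∧
      ∀ y : T, y + θ p.1 ∈ U → y + θ p.2 ∈ U → p.1 = p.2 := by
    intro p _
    by_cases hp : p.1 = p.2
    · exact ⟨univ, isOpen_univ, mem_univ _, fun _ _ _ => hp⟩
    · have hne : θ (p.1 - p.2) ≠ 0 := by
        intro h
        apply hp
        have := hθ (h.trans (map_zero θ).symm)
        exact sub_eq_zero.mp this
      have hopen : IsOpen {q : T × T | q.1 - q.2 ≠ θ (p.1 - p.2)} := by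
        apply isOpen_ne_fun <;> fun_prop
      have hmem : ((0 : T), (0 : T)) ∈ {q : T × T | q.1 - q.2 ≠ θ (p.1 - p.2)} := by
        simp only [mem_ofPred_eq, sub_self]
        exact fun h => hne h.symm
      obtain ⟨U, V, hU, hV, h0U, h0V, hUV⟩ := isOpen_prod_iff.mp hopen 0 0 hmem
      refine ⟨U ∩ V, hU.inter hV, ⟨h0U, h0V⟩, ?_⟩
      intro y hy1 hy2
      exfalso
      have := hUV (Set.mk_mem_prod hy1.1 hy2.2)
      apply this
      simp [map_sub]
  choose! U hU using h1
  refine ⟨⋂ p ∈ (F ×ˢ F : Finset (Γ × Γ)), U p, ?_, ?_, ?_⟩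
  · exact isOpen_biInter_finset (fun p hp => (hU p hp).1)
  · simp only [mem_iInter]
    exact fun p hp => (hU p hp).2.1
  · intro γ hγ γ' hγ' y hy hy'
    simp only [mem_iInter] at hy hy'
    have hp : (γ, γ') ∈ (F ×ˢ F : Finset (Γ × Γ)) := Finset.mem_product.mpr ⟨hγ, hγ'⟩
    exact (hU _ hp).2.2 y (hy _ hp) (hy' _ hp)

end small

section merge

variable {T Γ : Type*} [AddCommGroup T] [TopologicalSpace T] [IsTopologicalAddGroup T] [T2Space T]
  [SecondCountableTopology T] [MeasurableSpace T] [BorelSpace T]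
  [AddCommGroup Γ] [MeasurableSpace Γ] [DiscreteMeasurableSpace Γ] [Countable Γ]

/-- the finite sets containing the displacements -/
noncomputable def mB (S : Finset Γ) : ℕ → Finset Γ
  | 0 => {0}
  | n + 1 => by
      classical
      exact mB S n + insert 0 (((mB S n).image (fun b => -b)) ∪
        ((S ×ˢ mB S n).image (fun p => -p.1 - p.2)))

noncomputable def mF (S : Finset Γ) (n : ℕ) : Finset Γ := by
  classical
  exact ((mB S n).image (fun b => -b)) ∪ ((S ×ˢ mB S n).image (fun p => -p.1 - p.2))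

/-- one merging step -/
noncomputable def mW (θ : Γ →+ T) (F : Finset Γ) (A : Set T) (y : T) : Γ := by
  classical
  exact ∑ γ ∈ F, if y + θ γ ∈ A then γ else 0

noncomputable def mb (θ : Γ →+ T) (F : ℕ → Finset Γ) (A : ℕ → Set T) : ℕ → T → Γ
  | 0 => fun _ => 0
  | n + 1 => fun x => mb θ F A n x + mW θ (F n) (A n) (x + θ (mb θ F A n x))

theorem mW_eq (θ : Γ →+ T) (F : Finset Γ) (A : Set T)
    (hA : ∀ γ ∈ F, ∀ γ' ∈ F, ∀ y : T, y + θ γ ∈ A → y + θ γ' ∈ A → γ = γ')
    (y : T) {γ : Γ} (hγ : γ ∈ F) (hy : y + θ γ ∈ A) : mW θ F A y = γ := by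
  classical
  unfold mW
  rw [Finset.sum_eq_single γ]
  · rw [if_pos hy]
  · intro γ' hγ' hne
    rw [if_neg]
    intro h
    exact hne (hA _ hγ' _ hγ y h hy)
  · intro h
    exact absurd hγ h

theorem mW_mem [DecidableEq Γ] (θ : Γ →+ T) (F : Finset Γ) (A : Set T)
    (hA : ∀ γ ∈ F, ∀ γ' ∈ F, ∀ y : T, y + θ γ ∈ A → y + θ γ' ∈ A → γ = γ')
    (y : T) : mW θ F A y ∈ insert 0 F := by
  classical
  by_cases h : ∃ γ ∈ F, y + θ γ ∈ A
  · obtain ⟨γ, hγ, hy⟩ := h
    rw [mW_eq θ F A hA y hγ hy]
    exact Finset.mem_insert_of_mem hγ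
  · push Not at h
    have : mW θ F A y = 0 := by
      unfold mW
      apply Finset.sum_eq_zero
      intro γ hγ
      rw [if_neg (h γ hγ)]
    rw [this]
    exact Finset.mem_insert_self _ _

theorem measurable_mW (θ : Γ →+ T) (F : Finset Γ) {A : Set T} (hA : MeasurableSet A) :
    Measurable (mW θ F A) := by
  classical
  unfold mW
  have hadd : MeasurableAdd₂ Γ := ⟨measurable_of_countable _⟩
  apply Finset.measurable_sum
  intro γ _
  apply Measurable.ite _ measurable_const measurable_const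
  exact (measurable_id.add_const (θ γ)) hA

theorem measurable_mb (θ : Γ →+ T) (F : ℕ → Finset Γ) {A : ℕ → Set T}
    (hA : ∀ n, MeasurableSet (A n)) (n : ℕ) : Measurable (mb θ F A n) := by
  have hadd : MeasurableAdd₂ Γ := ⟨measurable_of_countable _⟩
  induction n with
  | zero => exact measurable_const
  | succ n ih =>
    have h1 : Measurable (fun x => θ (mb θ F A n x)) := by
      have : Measurable (θ : Γ → T) := measurable_of_countable _
      exact this.comp ih
    exact ih.add ((measurable_mW θ (F n) (hA n)).comp (measurable_id.add h1))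

theorem mb_consistent (θ : Γ →+ T) (F : ℕ → Finset Γ) (A : ℕ → Set T) (n : ℕ) (x : T) (γ : Γ)
    (h : mb θ F A n x = γ + mb θ F A n (x + θ γ)) :
    mb θ F A (n + 1) x = γ + mb θ F A (n + 1) (x + θ γ) := by
  simp only [mb]
  have : x + θ (mb θ F A n x) = x + θ γ + θ (mb θ F A n (x + θ γ)) := by
    rw [h, map_add]; abel
  rw [this, h]
  abel

/-- **Merging lemma.** -/
theorem exists_merge [Nonempty T] (θ : Γ →+ T) (hθ : Function.Injective θ) (S : Finset Γ) :
    ∃ (b : ℕ → T → Γ) (D : Set T), (∀ n, Measurable (b n)) ∧ IsOpen D ∧ Dense D ∧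
      (∀ n x γ, b n x = γ + b n (x + θ γ) → b (n + 1) x = γ + b (n + 1) (x + θ γ)) ∧
      (∀ x ∈ D, ∀ γ ∈ S, ∃ n, b n x = γ + b n (x + θ γ)) := by
  classical
  choose U hUo hU0 hU using fun n => exists_small_nhd θ hθ (mF S n)
  let q : ℕ → T := TopologicalSpace.denseSeq T
  let A : ℕ → Set T := fun n => {x | x - q n ∈ U n}
  have hAo : ∀ n, IsOpen (A n) := fun n => (hUo n).preimage (by fun_prop)
  have hA : ∀ n, ∀ γ ∈ mF S n, ∀ γ' ∈ mF S n, ∀ y : T,
      y + θ γ ∈ A n → y + θ γ' ∈ A n → γ = γ' := by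
    intro n γ hγ γ' hγ' y h h'
    refine hU n γ hγ γ' hγ' (y - q n) ?_ ?_
    · have : y - q n + θ γ = y + θ γ - q n := by abel
      rw [this]; exact h
    · have : y - q n + θ γ' = y + θ γ' - q n := by abel
      rw [this]; exact h'
  have hmem : ∀ n x, mb θ (mF S) A n x ∈ mB S n := by
    intro n
    induction n with
    | zero => intro x; simp [mb, mB]
    | succ n ih =>
      intro x
      have h1 := mW_mem θ (mF S n) (A n) (hA n) (x + θ (mb θ (mF S) A n x))
      have h2 := Finset.add_mem_add (ih x) h1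
      have h3 : mB S (n + 1) = mB S n + insert 0 (mF S n) := by
        simp only [mB, mF]
      rw [h3]
      exact h2
  refine ⟨mb θ (mF S) A, ⋃ n, A n, fun n => measurable_mb θ _ (fun n => (hAo n).measurableSet) n,
    isOpen_iUnion hAo, ?_, fun n x γ h => mb_consistent θ _ A n x γ h, ?_⟩
  · refine (TopologicalSpace.denseRange_denseSeq T).mono ?_
    rintro _ ⟨n, rfl⟩
    refine mem_iUnion.mpr ⟨n, ?_⟩
    show TopologicalSpace.denseSeq T n - q n ∈ U n
    have : TopologicalSpace.denseSeq T n - q n = 0 := sub_self _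
    rw [this]; exact hU0 n
  · intro x hx γ hγ
    obtain ⟨n, hn⟩ := mem_iUnion.mp hx
    refine ⟨n + 1, ?_⟩
    have e1 : mb θ (mF S) A (n + 1) x = 0 := by
      have hm : -(mb θ (mF S) A n x) ∈ mF S n := by
        unfold mF
        exact Finset.mem_union_left _ (Finset.mem_image_of_mem _ (hmem n x))
      have : mW θ (mF S n) (A n) (x + θ (mb θ (mF S) A n x)) = -(mb θ (mF S) A n x) := by
        apply mW_eq θ (mF S n) (A n) (hA n) _ hm
        have : x + θ (mb θ (mF S) A n x) + θ (-(mb θ (mF S) A n x)) = x := by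
          rw [map_neg]; abel
        rw [this]; exact hn
      simp only [mb, this]
      abel
    have e2 : mb θ (mF S) A (n + 1) (x + θ γ) = -γ := by
      set y := x + θ γ with hy
      have hm : -γ - (mb θ (mF S) A n y) ∈ mF S n := by
        unfold mF
        refine Finset.mem_union_right _ (Finset.mem_image.mpr
          ⟨(γ, mb θ (mF S) A n y), Finset.mem_product.mpr ⟨hγ, hmem n y⟩, ?_⟩)
        rfl
      have : mW θ (mF S n) (A n) (y + θ (mb θ (mF S) A n y)) = -γ -(mb θ (mF S) A n y) := by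
        apply mW_eq θ (mF S n) (A n) (hA n) _ hm
        have : y + θ (mb θ (mF S) A n y) + θ (-γ -(mb θ (mF S) A n y)) = x := by
          rw [map_sub, map_neg, hy]; abel
        rw [this]; exact hn
      simp only [mb, this]
      abel
    rw [e1, e2]
    abel

end merge

end Pool.Agent.Canc
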